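import Mathlib
import Pool.Agent.X87.MetricMeanDim

set_option autoImplicit false

namespace Pool.Agent.Results.MP_428550_an.HolderBound

open Pool.Agent.X87.MetricMeanDim

/-- For every `α ∈ (0,1]`, every `α`-Hölder map `φ : [0,1] → [0,1]` satisfies
`upper mdim ≤ 1 - α`, so its upper (and lower) metric mean dimension is less than `1`. -/
theorem result : ∀ α : ℝ, 0 < α → α ≤ 1 → ∀ φ : Set.Icc (0 : ℝ) 1 → Set.Icc (0 : ℝ) 1,
    IsHolder φ α → upperMDim φ ≤ ((1 - α : ℝ) : EReal) ∧ upperMDim φ < 1 ∧ lowerMDim φ < 1 := by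
  intro α h0 h1 φ hφ
  have h := upperMDim_le φ α h0 h1 hφ
  have h2 : upperMDim φ < 1 := by
    refine h.trans_lt ?_
    rw [← EReal.coe_one, EReal.coe_lt_coe_iff]
    linarith
  refine ⟨h, h2, lt_of_le_of_lt ?_ h2⟩
  exact Filter.liminf_le_limsup

end Pool.Agent.Results.MP_428550_an.HolderBound
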